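import Pool.Agent.H25.TRI.Targets

/-! Part C of the regularity theorem (MP_2697e3_an), row UPD: the heat extension is smooth and
commutes with partial derivatives. -/

set_option autoImplicit false

namespace Pool.Agent.H63.TRI

open MeasureTheory Metric Set Filter Topology Pool.Agent.H87.SN Pool.Agent.H25.TRI
open scoped ContDiff RealInnerProductSpace ENNReal

private theorem gam_int (hGAU : T_GAU) (n : ℕ) : Integrable (fun z : E n => gam z) := by
  have h := (hGAU n).2.2.1 0
  simpa using h

private theorem gam_cont (hGAU : T_GAU) (n : ℕ) : Continuous (fun z : E n => gam z) :=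
  (hGAU n).2.2.2.1.continuous

private theorem U_has (hGAU : T_GAU) {n : ℕ} {f : E n → ℝ} (hf : Cc f) (s : ℝ) (x : E n) :
    Integrable (fun z : E n => gam z • fderiv ℝ f (x - Real.sqrt s • z)) ∧
    HasFDerivAt (U f s) (∫ z : E n, gam z • fderiv ℝ f (x - Real.sqrt s • z)) x := by
  have hgi := gam_int hGAU n
  have hgc := gam_cont hGAU n
  have hg0 : ∀ z : E n, 0 < gam z := (hGAU n).1
  have hfc := hf.continuous
  obtain ⟨B, hB⟩ := hf.bdd
  have hdc : Continuous (fderiv ℝ f) := hf.1.continuous_fderiv (by simp)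
  obtain ⟨C, hC⟩ := (hf.2.fderiv (𝕜 := ℝ)).exists_bound_of_continuous hdc
  have hsub : ∀ y : E n, Continuous (fun z : E n => y - Real.sqrt s • z) := fun y => by fun_prop
  have hm : ∀ y : E n, AEStronglyMeasurable (fun z : E n => gam z * f (y - Real.sqrt s • z)) :=
    fun y => (hgc.mul (hfc.comp (hsub y))).aestronglyMeasurable
  have hm' : AEStronglyMeasurable (fun z : E n => gam z • fderiv ℝ f (x - Real.sqrt s • z)) :=
    (hgc.smul (hdc.comp (hsub x))).aestronglyMeasurable
  have hbd : ∀ z y : E n, ‖gam z • fderiv ℝ f (y - Real.sqrt s • z)‖ ≤ gam z * C := by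
    intro z y
    rw [norm_smul, Real.norm_eq_abs, abs_of_pos (hg0 z)]
    exact mul_le_mul_of_nonneg_left (hC _) (hg0 z).le
  have hbi : Integrable (fun z : E n => gam z * C) := hgi.mul_const C
  refine ⟨hbi.mono' hm' (ae_of_all _ fun z => hbd z x), ?_⟩
  have hint : Integrable (fun z : E n => gam z * f (x - Real.sqrt s • z)) := by
    refine (hgi.mul_const B).mono' (hm x) (ae_of_all _ fun z => ?_)
    rw [norm_mul, Real.norm_eq_abs, Real.norm_eq_abs, abs_of_pos (hg0 z)]
    exact mul_le_mul_of_nonneg_left (hB _) (hg0 z).le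
  refine hasFDerivAt_integral_of_dominated_of_fderiv_le (s := Set.univ)
    (F := fun (y z : E n) => gam z * f (y - Real.sqrt s • z))
    (F' := fun (y z : E n) => gam z • fderiv ℝ f (y - Real.sqrt s • z))
    (bound := fun z => gam z * C) Filter.univ_mem (Filter.Eventually.of_forall hm) hint hm'
    (ae_of_all _ fun z y _ => hbd z y) hbi (ae_of_all _ fun z y _ => ?_)
  have h1 : HasFDerivAt f (fderiv ℝ f (y - Real.sqrt s • z)) (y - Real.sqrt s • z) :=
    (hf.1.differentiable (by simp) _).hasFDerivAt
  have h2 : HasFDerivAt (fun y : E n => y - Real.sqrt s • z) (ContinuousLinearMap.id ℝ (E n)) y :=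
    (hasFDerivAt_id y).sub_const _
  have h3 := (h1.comp y h2).const_mul (gam z)
  rw [ContinuousLinearMap.comp_id] at h3
  exact h3

private theorem U_pd (hGAU : T_GAU) {n : ℕ} {f : E n → ℝ} (hf : Cc f) (s : ℝ) (i : Fin n)
    (x : E n) : pd i (U f s) x = U (pd i f) s x := by
  obtain ⟨h1, h2⟩ := U_has hGAU hf s x
  unfold pd
  rw [h2.fderiv, ContinuousLinearMap.integral_apply h1]
  rfl

private theorem sum_bv {n : ℕ} (y : E n) : y = ∑ i : Fin n, y i • (bv i : E n) := by
  ext j
  simp [bv, Finset.sum_apply, Pi.single_apply]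

private theorem U_smooth (hGAU : T_GAU) {n : ℕ} (s : ℝ) : ∀ (m : ℕ) (f : E n → ℝ), Cc f →
    ContDiff ℝ (m : ℕ) (U f s) := by
  intro m
  induction m with
  | zero =>
    intro f hf
    rw [Nat.cast_zero, contDiff_zero]
    exact continuous_iff_continuousAt.2 fun x => (U_has hGAU hf s x).2.continuousAt
  | succ m ih =>
    intro f hf
    rw [Nat.cast_succ, contDiff_succ_iff_fderiv_apply]
    refine ⟨fun x => (U_has hGAU hf s x).2.differentiableAt, ?_, ?_⟩
    · intro h
      exact absurd h (by simp)
    · intro y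
      have h1 : (fun x => fderiv ℝ (U f s) x y) =
          fun x => ∑ i : Fin n, y i * U (pd i f) s x := by
        funext x
        conv_lhs => rw [sum_bv y, map_sum]
        refine Finset.sum_congr rfl fun i _ => ?_
        rw [map_smul, smul_eq_mul, ← U_pd hGAU hf s i x]
        rfl
      rw [h1]
      exact ContDiff.sum fun i _ => contDiff_const.mul (ih _ (hf.pd i))

theorem pf_UPD (hGAU : T_GAU) : T_UPD := by
  intro n f hf s
  exact ⟨contDiff_infty.2 fun m => U_smooth hGAU s m f hf, fun i x => U_pd hGAU hf s i x⟩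

end Pool.Agent.H63.TRI
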